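import Pool.Agent.helper71.DSW.SpecB

/-!
# Project dsw, row MIN: minimal moves to a better copy
-/

set_option autoImplicit false

namespace Pool.Agent.DSW

open Equiv Finset Function Pool.Agent.helper48.PP
open scoped ENNReal Classical

/-- The array `e` with the point in the block `u` replaced by that of `f`. -/
def MIN_one {L : ℕ} (e f : Arr L) (u : Fin L × Fin L) : Arr L :=
  (fun b i => if (b, i) = u then f.1 b i else e.1 b i,
    fun i b => if (b, i) = u then f.2 i b else e.2 i b)

theorem MIN_one_cell {L : ℕ} (e f : Arr L) (u v : Fin L × Fin L) :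
    cellAt (MIN_one e f u) v = if v = u then cellAt f v else cellAt e v := by
  unfold cellAt MIN_one
  by_cases h : v = u
  · have h' : (v.1, v.2) = u := h
    simp only [h', if_true, h]
  · have h' : ¬ ((v.1, v.2) = u) := h
    simp only [h', if_false, h]

theorem MIN_mem_mov {L : ℕ} (e f : Arr L) (u : Fin L × Fin L) :
    u ∈ mov e f ↔ cellAt f u ≠ cellAt e u := by
  simp [mov]

theorem MIN_fst {L : ℕ} {e f : Arr L} {b i : Fin L} (h : (b, i) ∉ mov e f) :
    e.1 b i = f.1 b i := by
  rw [MIN_mem_mov, not_not] at h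
  unfold cellAt at h
  simp only [Prod.mk.injEq, true_and] at h
  exact h.1.symm

theorem MIN_snd {L : ℕ} {e f : Arr L} {b i : Fin L} (h : (b, i) ∉ mov e f) :
    e.2 i b = f.2 i b := by
  rw [MIN_mem_mov, not_not] at h
  unfold cellAt at h
  simp only [Prod.mk.injEq, true_and] at h
  exact h.2.symm

theorem MIN_mov_one {L : ℕ} {e f : Arr L} {u : Fin L × Fin L} (h : u ∈ mov e f) :
    (mov e (MIN_one e f u)).card = 1 := by
  have : mov e (MIN_one e f u) = {u} := by
    ext v
    rw [MIN_mem_mov, MIN_one_cell, Finset.mem_singleton]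
    by_cases hv : v = u
    · subst hv
      rw [MIN_mem_mov] at h
      simp [h]
    · simp [hv]
  rw [this, Finset.card_singleton]

theorem MIN_valid_one {L : ℕ} {m m' : Fin L → ℕ} {e f : Arr L} {b i : Fin L}
    (he : Valid m m' e) (hf : Valid m m' f)
    (h1 : ∀ j, j < i → e.1 b j < f.1 b i) (h2 : ∀ j, i < j → f.1 b i < e.1 b j)
    (h3 : ∀ c, c < b → e.2 i c < f.2 i b) (h4 : ∀ c, b < c → f.2 i b < e.2 i c) :
    Valid m m' (MIN_one e f (b, i)) := by
  refine ⟨?_, ?_, ?_, ?_⟩
  · intro c j j' hjj
    show (if (c, j) = (b, i) then f.1 c j else e.1 c j) <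
      (if (c, j') = (b, i) then f.1 c j' else e.1 c j')
    by_cases hc : c = b
    · subst hc
      by_cases hj : j = i
      · subst hj
        have : ¬ ((c, j') = (c, j)) := by
          intro h
          rw [Prod.mk.injEq] at h
          exact (ne_of_gt hjj) h.2
        rw [if_pos rfl, if_neg this]
        exact h2 j' hjj
      · have hn : ¬ ((c, j) = (c, i)) := by
          intro h
          rw [Prod.mk.injEq] at h
          exact hj h.2
        rw [if_neg hn]
        by_cases hj' : j' = i
        · subst hj'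
          rw [if_pos rfl]
          exact h1 j hjj
        · have hn' : ¬ ((c, j') = (c, i)) := by
            intro h
            rw [Prod.mk.injEq] at h
            exact hj' h.2
          rw [if_neg hn']
          exact he.1 c hjj
    · have hn : ∀ j : Fin L, ¬ ((c, j) = (b, i)) := by
        intro j h
        rw [Prod.mk.injEq] at h
        exact hc h.1
      rw [if_neg (hn j), if_neg (hn j')]
      exact he.1 c hjj
  · intro j c c' hcc
    show (if (c, j) = (b, i) then f.2 j c else e.2 j c) <
      (if (c', j) = (b, i) then f.2 j c' else e.2 j c')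
    by_cases hj : j = i
    · subst hj
      by_cases hc : c = b
      · subst hc
        have : ¬ ((c', j) = (c, j)) := by
          intro h
          rw [Prod.mk.injEq] at h
          exact (ne_of_gt hcc) h.1
        rw [if_pos rfl, if_neg this]
        exact h4 c' hcc
      · have hn : ¬ ((c, j) = (b, j)) := by
          intro h
          rw [Prod.mk.injEq] at h
          exact hc h.1
        rw [if_neg hn]
        by_cases hc' : c' = b
        · subst hc'
          rw [if_pos rfl]
          exact h3 c hcc
        · have hn' : ¬ ((c', j) = (b, j)) := by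
            intro h
            rw [Prod.mk.injEq] at h
            exact hc' h.1
          rw [if_neg hn']
          exact he.2.1 j hcc
    · have hn : ∀ c : Fin L, ¬ ((c, j) = (b, i)) := by
        intro c h
        rw [Prod.mk.injEq] at h
        exact hj h.2
      rw [if_neg (hn c), if_neg (hn c')]
      exact he.2.1 j hcc
  · intro c j
    show (if (c, j) = (b, i) then f.1 c j else e.1 c j) < m c
    split_ifs
    · exact hf.2.2.1 c j
    · exact he.2.2.1 c j
  · intro j c
    show (if (c, j) = (b, i) then f.2 j c else e.2 j c) < m' j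
    split_ifs
    · exact hf.2.2.2 j c
    · exact he.2.2.2 j c

theorem MIN_better_one {L : ℕ} {e f : Arr L} {u : Fin L × Fin L}
    (h : f.1 u.1 u.2 < e.1 u.1 u.2 ∨ (f.1 u.1 u.2 = e.1 u.1 u.2 ∧ f.2 u.2 u.1 < e.2 u.2 u.1)) :
    Better (MIN_one e f u) e := by
  refine ⟨u, ?_, ?_⟩
  · intro v hv
    rw [MIN_one_cell]
    have : v ≠ u := by
      rintro rfl
      rcases hv with h | h
      · exact lt_irrefl _ h
      · exact lt_irrefl _ h.2
    rw [if_neg this]
  · have h1 : (MIN_one e f u).1 u.1 u.2 = f.1 u.1 u.2 := by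
      show (if (u.1, u.2) = u then f.1 u.1 u.2 else e.1 u.1 u.2) = _
      rw [if_pos rfl]
    have h2 : (MIN_one e f u).2 u.2 u.1 = f.2 u.2 u.1 := by
      show (if (u.1, u.2) = u then f.2 u.2 u.1 else e.2 u.2 u.1) = _
      rw [if_pos rfl]
    rw [h1, h2]
    exact h

theorem MIN_cells {L : ℕ} {e e' f g : Arr L} (hf : cells f ⊆ cells e ∪ cells e')
    (hg : ∀ v, cellAt g v = cellAt e v ∨ cellAt g v = cellAt f v) :
    cells g ⊆ cells e ∪ cells e' := by
  intro x hx
  unfold cells at hx
  rw [Finset.mem_image] at hx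
  obtain ⟨v, -, rfl⟩ := hx
  rcases hg v with h | h
  · rw [h]
    apply Finset.mem_union_left
    unfold cells
    exact Finset.mem_image_of_mem _ (Finset.mem_univ v)
  · rw [h]
    apply hf
    unfold cells
    exact Finset.mem_image_of_mem _ (Finset.mem_univ v)

theorem MIN_one_cells {L : ℕ} {e e' f : Arr L} (hf : cells f ⊆ cells e ∪ cells e')
    (u : Fin L × Fin L) : cells (MIN_one e f u) ⊆ cells e ∪ cells e' := by
  apply MIN_cells hf
  intro v
  rw [MIN_one_cell]
  split_ifs
  · exact Or.inr rfl
  · exact Or.inl rfl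

theorem MIN_adj_symm {L : ℕ} {u v : Fin L × Fin L} (h : Adj u v) : Adj v u := by
  rcases h with ⟨h1, h2⟩ | ⟨h1, h2⟩
  · exact Or.inl ⟨h1.symm, h2.symm⟩
  · exact Or.inr ⟨h1.symm, h2.symm⟩

theorem MIN (hCUT : CUT_stmt) : MIN_stmt := by
  intro L m m' e e' hve hve' hbe
  -- the minimal choice
  let P : ℕ → Prop := fun n => ∃ f : Arr L, Valid m m' f ∧ Better f e ∧
    cells f ⊆ cells e ∪ cells e' ∧ (mov e f).card = n
  have hex : ∃ n, P n := ⟨_, e', hve', hbe, Finset.subset_union_right, rfl⟩
  obtain ⟨f, hvf, hbf, hcf, hn⟩ := Nat.find_spec hex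
  have hmin : ∀ g : Arr L, Valid m m' g → Better g e → cells g ⊆ cells e ∪ cells e' →
      (mov e f).card ≤ (mov e g).card := by
    intro g h1 h2 h3
    rw [hn]
    exact Nat.find_min' hex ⟨g, h1, h2, h3, rfl⟩
  clear hn
  obtain ⟨u₀, hb1, hb2⟩ := id hbf
  have hu₀ : u₀ ∈ mov e f := by
    rw [MIN_mem_mov]
    intro h
    unfold cellAt at h
    simp only [Prod.mk.injEq, true_and] at h
    obtain ⟨h1, h2⟩ := h
    rcases hb2 with h3 | h3
    · omega
    · omega
  have hbefore : ∀ v : Fin L × Fin L, (v.1 < u₀.1 ∨ (v.1 = u₀.1 ∧ v.2 < u₀.2)) →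
      v ∉ mov e f := by
    intro v hv
    rw [MIN_mem_mov, not_not]
    exact hb1 v hv
  -- cutting
  have hcut : ∀ R₁ : Finset (Fin L × Fin L), R₁ ⊆ mov e f → u₀ ∈ R₁ →
      (∀ u ∈ R₁, ∀ v ∉ R₁, Adj u v → v ∉ mov e f) → R₁.card < (mov e f).card → False := by
    intro R₁ h1 h2 h3 h4
    obtain ⟨g, hvg, hmg, hg1, hg2⟩ := hCUT L m m' e f R₁ hve hvf h1 h3
    have hg : ∀ v, cellAt g v = cellAt e v ∨ cellAt g v = cellAt f v := by
      intro v
      by_cases hv : v ∈ R₁
      · exact Or.inr (hg1 v hv)
      · exact Or.inl (hg2 v hv)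
    have hgb : Better g e := by
      refine ⟨u₀, ?_, ?_⟩
      · intro v hv
        rcases hg v with h | h
        · exact h
        · rw [h]
          exact hb1 v hv
      · have h := hg1 u₀ h2
        unfold cellAt at h
        simp only [Prod.mk.injEq, true_and] at h
        rw [h.1, h.2]
        exact hb2
    have := hmin g hvg hgb (MIN_cells hcf hg)
    rw [hmg] at this
    omega
  have hconn : Conn (mov e f) := by
    refine ⟨⟨u₀, hu₀⟩, ?_⟩
    intro R' hR' hne hne'
    by_contra hcon
    have hcon' : ∀ u ∈ R', ∀ v ∈ mov e f \ R', ¬ Adj u v := by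
      intro u hu v hv hadj
      exact hcon ⟨u, hu, v, hv, hadj⟩
    by_cases hm : u₀ ∈ R'
    · apply hcut R' hR' hm
      · intro u hu v hv hadj hvm
        exact hcon' u hu v (Finset.mem_sdiff.mpr ⟨hvm, hv⟩) hadj
      · exact Finset.card_lt_card (hR'.ssubset_of_ne hne')
    · apply hcut (mov e f \ R') Finset.sdiff_subset (Finset.mem_sdiff.mpr ⟨hu₀, hm⟩)
      · intro u hu v hv hadj hvm
        have hvR : v ∈ R' := by
          by_contra hvR
          exact hv (Finset.mem_sdiff.mpr ⟨hvm, hvR⟩)
        exact hcon' v hvR u hu (MIN_adj_symm hadj)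
      · apply Finset.card_lt_card
        refine ⟨Finset.sdiff_subset, ?_⟩
        intro hsub
        obtain ⟨x, hx⟩ := hne
        have := hsub (hR' hx)
        rw [Finset.mem_sdiff] at this
        exact this.2 hx
  -- single moves
  have hsingle : ∀ b i : Fin L, (b, i) ∈ mov e f → (mov e f).card = 2 →
      (∀ j, j < i → e.1 b j < f.1 b i) → (∀ j, i < j → f.1 b i < e.1 b j) →
      (∀ c, c < b → e.2 i c < f.2 i b) → (∀ c, b < c → f.2 i b < e.2 i c) →
      (f.1 b i < e.1 b i ∨ (f.1 b i = e.1 b i ∧ f.2 i b < e.2 i b)) → False := by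
    intro b i hm h2 h3 h4 h5 h6 h7
    have hv := MIN_valid_one hve hvf h3 h4 h5 h6
    have hb : Better (MIN_one e f (b, i)) e := MIN_better_one h7
    have := hmin _ hv hb (MIN_one_cells hcf (b, i))
    rw [MIN_mov_one hm] at this
    omega
  refine ⟨f, ⟨hvf, hbf, hconn, ?_⟩, hcf⟩
  have hpos : 0 < (mov e f).card := Finset.card_pos.mpr ⟨u₀, hu₀⟩
  by_cases h1 : (mov e f).card = 1
  · exact Or.inl h1
  by_cases h3 : 3 ≤ (mov e f).card
  · exact Or.inr (Or.inr h3)
  have h2 : (mov e f).card = 2 := by omega
  refine Or.inr (Or.inl ⟨h2, ?_⟩)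
  -- the second block
  obtain ⟨u, hu, v, hv, hadj⟩ := hconn.2 {u₀} (Finset.singleton_subset_iff.mpr hu₀)
    (Finset.singleton_nonempty u₀) (by
      intro h
      rw [← h, Finset.card_singleton] at h2
      omega)
  rw [Finset.mem_singleton] at hu
  subst hu
  rw [Finset.mem_sdiff, Finset.mem_singleton] at hv
  obtain ⟨hvm, hvu⟩ := hv
  have hmov : mov e f = {u, v} := by
    symm
    apply Finset.eq_of_subset_of_card_le
    · intro x hx
      rw [Finset.mem_insert, Finset.mem_singleton] at hx
      rcases hx with rfl | rfl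
      · exact hu₀
      · exact hvm
    · rw [h2, Finset.card_pair (Ne.symm hvu)]
  obtain ⟨b, i⟩ := u
  obtain ⟨b', i'⟩ := v
  simp only at hb2 hbefore
  have hnot : ∀ c j : Fin L, (c, j) ≠ (b, i) → (c, j) ≠ (b', i') → (c, j) ∉ mov e f := by
    intro c j h1 h2 h
    rw [hmov, Finset.mem_insert, Finset.mem_singleton] at h
    rcases h with h | h
    · exact h1 h
    · exact h2 h
  rcases hadj with ⟨ha1, ha2⟩ | ⟨ha1, ha2⟩
  · -- same column segment
    simp only at ha1 ha2
    subst ha1
    rcases ha2 with ha2 | ha2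
    · exfalso
      have hii : i < i' := by
        rw [Fin.lt_def]
        omega
      have hle : f.1 b i ≤ e.1 b i := by
        rcases hb2 with h | h
        · exact le_of_lt h
        · exact le_of_eq h.1
      apply hsingle b i hu₀ h2
      · intro j hj
        rw [MIN_fst (hnot b j (fun h => (ne_of_lt hj) (Prod.mk.inj h).2)
          (fun h => (ne_of_lt (hj.trans hii)) (Prod.mk.inj h).2))]
        exact hvf.1 b hj
      · intro j hj
        exact lt_of_le_of_lt hle (hve.1 b hj)
      · intro c hc
        rw [MIN_snd (hnot c i (fun h => (ne_of_lt hc) (Prod.mk.inj h).1)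
          (fun h => (ne_of_lt hc) (Prod.mk.inj h).1))]
        exact hvf.2.1 i hc
      · intro c hc
        rw [MIN_snd (hnot c i (fun h => (ne_of_gt hc) (Prod.mk.inj h).1)
          (fun h => (ne_of_gt hc) (Prod.mk.inj h).1))]
        exact hvf.2.1 i hc
      · exact hb2
    · exfalso
      apply hbefore (b, i') _ hvm
      right
      refine ⟨rfl, ?_⟩
      rw [Fin.lt_def]
      show (i' : ℕ) < (i : ℕ)
      omega
  · -- same row segment
    simp only at ha1 ha2
    subst ha1
    rcases ha2 with ha2 | ha2
    · have hbb : b < b' := by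
        rw [Fin.lt_def]
        omega
      have hA : e.2 i b' ≤ f.2 i b := by
        by_contra hlt
        rw [not_le] at hlt
        apply hsingle b i hu₀ h2
        · intro j hj
          rw [MIN_fst (hnot b j (fun h => (ne_of_lt hj) (Prod.mk.inj h).2)
            (fun h => (ne_of_lt hj) (Prod.mk.inj h).2))]
          exact hvf.1 b hj
        · intro j hj
          rw [MIN_fst (hnot b j (fun h => (ne_of_gt hj) (Prod.mk.inj h).2)
            (fun h => (ne_of_gt hj) (Prod.mk.inj h).2))]
          exact hvf.1 b hj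
        · intro c hc
          rw [MIN_snd (hnot c i (fun h => (ne_of_lt hc) (Prod.mk.inj h).1)
            (fun h => (ne_of_lt (hc.trans hbb)) (Prod.mk.inj h).1))]
          exact hvf.2.1 i hc
        · intro c hc
          by_cases hcb : c = b'
          · rw [hcb]
            exact hlt
          · rw [MIN_snd (hnot c i (fun h => (ne_of_gt hc) (Prod.mk.inj h).1)
              (fun h => hcb (Prod.mk.inj h).1))]
            exact hvf.2.1 i hc
        · exact hb2
      have hB : e.2 i b < e.2 i b' := hve.2.1 i hbb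
      have hC : f.1 b i < e.1 b i := by
        rcases hb2 with h | h
        · exact h
        · exfalso
          have := h.2
          omega
      have hD : f.2 i b < f.2 i b' := hvf.2.1 i hbb
      have hE : e.1 b' i ≤ f.1 b' i := by
        by_contra hlt
        rw [not_le] at hlt
        apply hsingle b' i hvm h2
        · intro j hj
          rw [MIN_fst (hnot b' j (fun h => (ne_of_lt hj) (Prod.mk.inj h).2)
            (fun h => (ne_of_lt hj) (Prod.mk.inj h).2))]
          exact hvf.1 b' hj
        · intro j hj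
          rw [MIN_fst (hnot b' j (fun h => (ne_of_gt hj) (Prod.mk.inj h).2)
            (fun h => (ne_of_gt hj) (Prod.mk.inj h).2))]
          exact hvf.1 b' hj
        · intro c hc
          by_cases hcb : c = b
          · rw [hcb]
            omega
          · rw [MIN_snd (hnot c i (fun h => hcb (Prod.mk.inj h).1)
              (fun h => (ne_of_lt hc) (Prod.mk.inj h).1))]
            exact hvf.2.1 i hc
        · intro c hc
          rw [MIN_snd (hnot c i (fun h => (ne_of_gt (hbb.trans hc)) (Prod.mk.inj h).1)
            (fun h => (ne_of_gt hc) (Prod.mk.inj h).1))]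
          exact hvf.2.1 i hc
        · exact Or.inl hlt
      exact ⟨b, b', i, ha2, hmov, hC, hE, hA⟩
    · exfalso
      apply hbefore (b', i) _ hvm
      left
      rw [Fin.lt_def]
      show (b' : ℕ) < (b : ℕ)
      omega

end Pool.Agent.DSW
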